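import Pool.Agent.H15.G.R_seed8.TH603.EL.Key
import Pool.Agent.H15.G.R_seed8.TH181.Nag.Tri
import Pool.Agent.H15.G.R_seed8.TH181.Nag.Final

/-! Nagata's inequality for every number `n ≥ 9` of very general points. -/

namespace Pool.Agent.TH868.NG

open Finset MvPolynomial Pool.Agent.TH176.Nag Pool.Agent.TH181.Nag

/-- the shape `(3 √n - 9, 18 - 3 √n)` -/
theorem PS_nine {ι : Type} [Fintype ι] (hn : 9 ≤ Fintype.card ι) :
    PS (√(Fintype.card ι)) ι (3 * √(Fintype.card ι) - 9) (18 - 3 * √(Fintype.card ι)) := by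
  have hn' : (9 : ℝ) ≤ Fintype.card ι := by exact_mod_cast hn
  have hr2 : √(Fintype.card ι : ℝ) ^ 2 = Fintype.card ι := Real.sq_sqrt (Nat.cast_nonneg _)
  have hr3 : (3 : ℝ) ≤ √(Fintype.card ι) := by
    apply Real.le_sqrt_of_sq_le
    linarith
  set r := √(Fintype.card ι : ℝ) with hr
  refine PS.stepA 1 9 isCoprime_one_left (by norm_num) ?_ ?_ ?_ ?_
  · push_cast; linarith
  · push_cast; linarith
  · linarith
  have e1 : ((1 : ℤ) : ℝ) * (((1 : ℤ) : ℝ) * (3 * r - 9) + ((9 : ℤ) : ℝ)) = 3 * r := by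
    push_cast; ring
  have e2 : (((9 : ℤ) : ℝ) - ((1 : ℤ) : ℝ) * (18 - 3 * r)) *
      (((1 : ℤ) : ℝ) * (3 * r - 9) + ((9 : ℤ) : ℝ)) / (3 * r - 9 + (18 - 3 * r)) = r ^ 2 - 3 * r := by
    have : 3 * r - 9 + (18 - 3 * r) = 9 := by ring
    rw [this]
    push_cast; ring
  rw [e1, e2]
  apply PS.final
  · linarith
  · nlinarith
  · rw [← hr2]; ring

/-- every triangle with slopes congruent to `3 √n` modulo the integers -/
theorem PS_all {ι : Type} [Fintype ι] (hn : 9 ≤ Fintype.card ι) {μ : ℝ} (k : ℤ)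
    (hμ : μ + k = 3 * √(Fintype.card ι) - 9) : PS (√(Fintype.card ι)) ι μ (9 - μ) := by
  apply PS.shear k
  rw [hμ]
  have e : 9 - μ - k = 18 - 3 * √(Fintype.card ι) := by linarith
  rw [e]
  exact PS_nine hn

theorem Emp_plane {ι : Type} [Fintype ι] (hn : 9 ≤ Fintype.card ι) {w : ι → ℕ} {d : ℕ}
    (h : √(Fintype.card ι) * (d : ℝ) < ∑ i, (w i : ℝ)) :
    Emp w {m : ℤ × ℤ | 0 ≤ m.1 ∧ 0 ≤ m.2 ∧ m.1 + m.2 ≤ (d : ℤ)} := by
  have hn' : (9 : ℝ) ≤ Fintype.card ι := by exact_mod_cast hn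
  have hr3 : (3 : ℝ) ≤ √(Fintype.card ι) := by
    apply Real.le_sqrt_of_sq_le
    linarith
  obtain ⟨r, hr⟩ : ∃ r, r = √(Fintype.card ι : ℝ) := ⟨_, rfl⟩
  rw [← hr] at h hr3
  have hr0 : 0 < r := by linarith
  -- a slightly larger degree
  obtain ⟨E, hE1, hE2⟩ : ∃ E : ℝ, (d : ℝ) < E ∧ r * E < ∑ i, (w i : ℝ) := by
    have h1 : (d : ℝ) < (∑ i, (w i : ℝ)) / r := by rw [lt_div_iff₀ hr0]; linarith
    obtain ⟨E, h2, h3⟩ := exists_between h1
    refine ⟨E, h2, ?_⟩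
    rw [lt_div_iff₀ hr0] at h3
    linarith
  have hd : (0 : ℝ) ≤ d := Nat.cast_nonneg d
  -- the slope
  obtain ⟨τ, hτ⟩ : ∃ τ : ℝ, τ = r - ((⌈3 * r⌉ - 1 : ℤ) : ℝ) / 3 := ⟨_, rfl⟩
  have hc1 : 3 * r ≤ ⌈3 * r⌉ := Int.le_ceil _
  have hc2 : (⌈3 * r⌉ : ℝ) < 3 * r + 1 := Int.ceil_lt_add_one _
  have h0 : 0 < τ := by
    rw [hτ]; push_cast; linarith
  have h1 : τ < 1 := by
    rw [hτ]; push_cast; linarith
  apply Pool.Agent.TH603.EL.Emp_key h0 h1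
  have hPS := PS_all hn (μ := 3 * (1 + τ)) ((⌈3 * r⌉ - 1) - 12) (by
    rw [← hr, hτ]; push_cast; ring)
  rw [← hr] at hPS
  have h3 := hPS w E (by linarith) hE2 (-((d : ℝ) * (1 + τ)))
  have e3 : 3 * (1 + τ) + (9 - 3 * (1 + τ)) = 9 := by ring
  have e4 : √(9 : ℝ) = 3 := by
    rw [show (9 : ℝ) = 3 ^ 2 by norm_num, Real.sqrt_sq (by norm_num)]
  rw [e3, e4] at h3
  apply h3.mono
  rintro ⟨a, b⟩ ⟨g1, g2, g3⟩
  refine ⟨g1, g2, g3.trans ?_⟩
  have e5 : 3 * (2 - τ) = 9 - 3 * (1 + τ) := by ring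
  rw [e5]
  linarith

/-- Nagata's inequality for every number `n ≥ 9` of very general points, not strict -/
theorem nagata_le {n : ℕ} (hn : 9 ≤ n) {v : Fin n → Fin 3 → ℂ} (hv0 : ∀ i, v i 0 ≠ 0)
    (hind : AlgebraicIndependent (⊥ : Subfield ℂ)
        (fun q : Fin n × Fin 2 => v q.1 q.2.succ / v q.1 0))
    {d : ℕ} {m : Fin n → ℕ} {F : MvPolynomial (Fin 3) ℂ} (hF : F ≠ 0) (hFd : F.IsHomogeneous d)
    (hm : ∀ i : Fin n, ∀ s : Fin 3 →₀ ℕ, (∑ j, s j) < m i →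
            MvPolynomial.coeff s
              (MvPolynomial.aeval
                (fun j : Fin 3 => (X j + MvPolynomial.C (v i j) : MvPolynomial (Fin 3) ℂ)) F) = 0) :
    ∑ i, (m i : ℝ) ≤ d * Real.sqrt n := by
  have hle : ∑ i, (m i : ℝ) ≤ √(n : ℝ) * d := by
    refine sum_le_of_Emp (√(n : ℝ)) ?_ hv0 hind hF hFd hm
    intro e w hw
    apply Emp_plane (by rw [Fintype.card_fin]; exact hn)
    rw [Fintype.card_fin]
    push_cast
    exact hw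
  linarith

/-- Nagata's inequality for every nonsquare number `n ≥ 9` of very general points -/
theorem nagata_lt {n : ℕ} (hn : 9 ≤ n) (hsq : ¬ IsSquare n) {v : Fin n → Fin 3 → ℂ}
    (hv0 : ∀ i, v i 0 ≠ 0)
    (hind : AlgebraicIndependent (⊥ : Subfield ℂ)
        (fun q : Fin n × Fin 2 => v q.1 q.2.succ / v q.1 0))
    {d : ℕ} {m : Fin n → ℕ} {F : MvPolynomial (Fin 3) ℂ} (hF : F ≠ 0) (hd : 0 < d)
    (hFd : F.IsHomogeneous d)
    (hm : ∀ i : Fin n, ∀ s : Fin 3 →₀ ℕ, (∑ j, s j) < m i →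
            MvPolynomial.coeff s
              (MvPolynomial.aeval
                (fun j : Fin 3 => (X j + MvPolynomial.C (v i j) : MvPolynomial (Fin 3) ℂ)) F) = 0) :
    ∑ i, (m i : ℝ) < d * Real.sqrt n := by
  refine lt_of_le_of_ne (nagata_le hn hv0 hind hF hFd hm) ?_
  intro heq
  apply irr_cls hsq (t := 1) le_rfl hd (S := ∑ i, m i)
  rw [one_pow, mul_one, ← heq]
  push_cast
  rfl

end Pool.Agent.TH868.NG
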