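import Pool.Agent.H15.G.R_seed8.TH603.EL.Defs
import Pool.Agent.H15.G.R_seed8.TH671.NagI1

/-! Transfer of the multiplicities along the tube. -/

namespace Pool.Agent.TH868.NG

open MvPolynomial Pool.Agent.TH603.EL

variable {F : Type} [Field F]

/-- the kernel of the evaluation at a point of the torus -/
noncomputable def kerI {x y : F} (hx : x ≠ 0) (hy : y ≠ 0) : Ideal (Lau F) :=
  RingHom.ker ((Pool.Agent.TH176.Nag.evL x y hx hy : Lau F →ₐ[F] F) : Lau F →+* F)

/-- all coefficients lie in the `w`-th power of the ideal of the point -/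
def VV {x y : F} (hx : x ≠ 0) (hy : y ≠ 0) (w : ℕ) (u : HR F) : Prop :=
  ∀ a, u.coeff a ∈ kerI hx hy ^ w

section
variable {x y : F} (hx : x ≠ 0) (hy : y ≠ 0)

theorem VV_zero_pow (u : HR F) : VV hx hy 0 u := by
  intro a
  rw [pow_zero, Ideal.one_eq_top]
  trivial

variable {hx hy}

theorem VV.mono {w w' : ℕ} {u : HR F} (h : VV hx hy w u) (hw : w' ≤ w) : VV hx hy w' u :=
  fun a => Ideal.pow_le_pow_right hw (h a)

theorem VV.add {w : ℕ} {u v : HR F} (h : VV hx hy w u) (h' : VV hx hy w v) :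
    VV hx hy w (u + v) := by
  intro a
  rw [HahnSeries.coeff_add]
  exact Ideal.add_mem _ (h a) (h' a)

theorem VV.zero {w : ℕ} : VV hx hy w (0 : HR F) := by
  intro a
  rw [HahnSeries.coeff_zero]
  exact Ideal.zero_mem _

theorem VV.sum {ι : Type*} {w : ℕ} {s : Finset ι} {u : ι → HR F}
    (h : ∀ i ∈ s, VV hx hy w (u i)) : VV hx hy w (∑ i ∈ s, u i) := by
  classical
  induction s using Finset.induction_on with
  | empty => simpa using VV.zero
  | insert i s hi ih =>
    rw [Finset.sum_insert hi]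
    exact (h i (Finset.mem_insert_self _ _)).add
      (ih fun j hj => h j (Finset.mem_insert_of_mem hj))

theorem VV.mul {w w' : ℕ} {u v : HR F} (h : VV hx hy w u) (h' : VV hx hy w' v) :
    VV hx hy (w + w') (u * v) := by
  intro a
  rw [HahnSeries.coeff_mul, pow_add]
  apply Ideal.sum_mem
  intro ij _
  exact Ideal.mul_mem_mul (h _) (h' _)

theorem VV.mul_right {w : ℕ} {u : HR F} (h : VV hx hy w u) (v : HR F) :
    VV hx hy w (u * v) := by
  simpa using h.mul (VV_zero_pow hx hy v)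

theorem VV.mul_left {w : ℕ} {u : HR F} (h : VV hx hy w u) (v : HR F) :
    VV hx hy w (v * u) := by
  rw [mul_comm]
  exact h.mul_right v

theorem VV.pow {w : ℕ} {u : HR F} (h : VV hx hy w u) (k : ℕ) : VV hx hy (w * k) (u ^ k) := by
  induction k with
  | zero => exact VV_zero_pow hx hy _
  | succ k ih =>
    rw [pow_succ, mul_add, mul_one]
    exact ih.mul h

theorem VV_one_of_evp {u : HR F} (h : evp hx hy u = 0) : VV hx hy 1 u := by
  intro a
  rw [pow_one]
  show Pool.Agent.TH176.Nag.evL x y hx hy (u.coeff a) = 0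
  rw [← evp_coeff, h, HahnSeries.coeff_zero]

theorem evp_incl (c : HK F) : evp hx hy (incl c) = c := by
  ext a
  rw [evp_coeff]
  show Pool.Agent.TH176.Nag.evL x y hx hy
    (AddMonoidAlgebra.single (0 : ℤ × ℤ) (c.coeff a)) = c.coeff a
  unfold Pool.Agent.TH176.Nag.evL
  rw [AddMonoidAlgebra.lift_single]
  simp

end

section taylor
variable {K R : Type*} [Field K] [CommRing R] (φ : K →+* R)

/-- the Taylor expansion of a single term -/
theorem term_taylor (a b e : ℕ) (N : ℕ) (ha : a ≤ N) (hb : b ≤ N) (hN : a + b + e = N)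
    (x y : K) (U0 D1 D2 : R) :
    U0 ^ e * (D1 + φ x * U0) ^ a * (D2 + φ y * U0) ^ b =
      ∑ k ∈ Finset.range (N + 1), ∑ l ∈ Finset.range (N + 1),
        φ ((a.choose k : K) * (b.choose l : K) * (x ^ (a - k) * y ^ (b - l))) *
          (U0 ^ (N - k - l) * D1 ^ k * D2 ^ l) := by
  have h1 : (D1 + φ x * U0) ^ a = ∑ k ∈ Finset.range (N + 1),
      φ ((a.choose k : K) * x ^ (a - k)) * (D1 ^ k * U0 ^ (a - k)) := by
    rw [add_pow]
    rw [← Finset.sum_subset (Finset.range_subset_range.2 (show a + 1 ≤ N + 1 by omega))]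
    · apply Finset.sum_congr rfl
      intro k _
      rw [map_mul, map_natCast, map_pow, mul_pow]
      ring
    · intro k _ hk
      have : a < k := by rw [Finset.mem_range] at hk; omega
      rw [Nat.choose_eq_zero_of_lt this]
      simp
  have h2 : (D2 + φ y * U0) ^ b = ∑ l ∈ Finset.range (N + 1),
      φ ((b.choose l : K) * y ^ (b - l)) * (D2 ^ l * U0 ^ (b - l)) := by
    rw [add_pow]
    rw [← Finset.sum_subset (Finset.range_subset_range.2 (show b + 1 ≤ N + 1 by omega))]
    · apply Finset.sum_congr rfl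
      intro k _
      rw [map_mul, map_natCast, map_pow, mul_pow]
      ring
    · intro k _ hk
      have : b < k := by rw [Finset.mem_range] at hk; omega
      rw [Nat.choose_eq_zero_of_lt this]
      simp
  rw [h1, h2, mul_assoc, Finset.sum_mul_sum, Finset.mul_sum]
  apply Finset.sum_congr rfl
  intro k _
  rw [Finset.mul_sum]
  apply Finset.sum_congr rfl
  intro l _
  by_cases hk : a < k
  · rw [Nat.choose_eq_zero_of_lt hk]
    simp
  by_cases hl : b < l
  · rw [Nat.choose_eq_zero_of_lt hl]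
    simp
  have h3 : U0 ^ (N - k - l) = U0 ^ e * (U0 ^ (a - k) * U0 ^ (b - l)) := by
    rw [← pow_add, ← pow_add]
    congr 1
    omega
  rw [h3]
  simp only [map_mul]
  ring

end taylor

/-- the descending product is a multiple of the binomial coefficient -/
theorem prod_desc (K : Type*) [Field K] (m k : ℕ) :
    ∏ t ∈ Finset.range k, ((m : K) - (t : K)) = (k.factorial : K) * (m.choose k : K) := by
  have h := Nat.descFactorial_eq_factorial_mul_choose m k
  rw [← Nat.cast_mul, ← h]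
  induction k with
  | zero => simp
  | succ k ih =>
    rw [Finset.prod_range_succ, ih (Nat.descFactorial_eq_factorial_mul_choose m k),
      Nat.descFactorial_succ]
    by_cases hk : k ≤ m
    · push_cast [Nat.cast_sub hk]
      ring
    · have : m.descFactorial k = 0 := Nat.descFactorial_eq_zero_iff_lt.2 (by omega)
      rw [this]
      simp

/-- the Taylor coefficients of orders less than the multiplicity vanish -/
theorem taylor_coeff_zero {K : Type} [Field K] [CharZero K] {x y : K} (hx : x ≠ 0) (hy : y ≠ 0)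
    {f : (ℤ × ℤ) →₀ K} (hf : ∀ m ∈ f.support, 0 ≤ m.1 ∧ 0 ≤ m.2) {w : ℕ}
    (h : Pool.Agent.TH176.Nag.LM f x y w) {k l : ℕ} (hkl : k + l < w) :
    f.sum (fun m c => c * ((m.1.toNat.choose k : K) * (m.2.toNat.choose l : K) *
      (x ^ (m.1.toNat - k) * y ^ (m.2.toNat - l)))) = 0 := by
  have h1 := h _ (Pool.Agent.TH176.Nag.PF_desc2 (K := K) hkl)
  unfold Pool.Agent.TH176.Nag.pr at h1
  have h2 : ((k.factorial : K) * (l.factorial : K) * (x ^ k * y ^ l)) *
      f.sum (fun m c => c * ((m.1.toNat.choose k : K) * (m.2.toNat.choose l : K) *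
      (x ^ (m.1.toNat - k) * y ^ (m.2.toNat - l)))) = 0 := by
    rw [← h1]
    unfold Finsupp.sum
    rw [Finset.mul_sum]
    apply Finset.sum_congr rfl
    rintro ⟨m1, m2⟩ hm
    obtain ⟨p, hp⟩ := Int.eq_ofNat_of_zero_le (hf _ hm).1
    obtain ⟨q, hq⟩ := Int.eq_ofNat_of_zero_le (hf _ hm).2
    simp only at hp hq
    subst hp hq
    simp only [Int.toNat_natCast, Int.cast_natCast, zpow_natCast, prod_desc]
    by_cases hk : p < k
    · rw [Nat.choose_eq_zero_of_lt hk]
      simp
    by_cases hl : q < l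
    · rw [Nat.choose_eq_zero_of_lt hl]
      simp
    have h3 : x ^ p = x ^ k * x ^ (p - k) := by rw [← pow_add]; congr 1; omega
    have h4 : y ^ q = y ^ l * y ^ (q - l) := by rw [← pow_add]; congr 1; omega
    rw [h3, h4]
    ring
  have h5 : ((k.factorial : K) * (l.factorial : K) * (x ^ k * y ^ l)) ≠ 0 := by
    refine mul_ne_zero (mul_ne_zero ?_ ?_) (mul_ne_zero (pow_ne_zero _ hx) (pow_ne_zero _ hy))
    · exact_mod_cast k.factorial_ne_zero
    · exact_mod_cast l.factorial_ne_zero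
  exact (mul_eq_zero.1 h2).resolve_left h5

theorem ev_hom (U : ZMod 3 → HR F) (d : ℕ) (f : (ℤ × ℤ) →₀ HK F) :
    ev U (hom d f) = f.sum fun m c =>
      incl c * (U 0 ^ ((d : ℤ) - m.1 - m.2).toNat * U 1 ^ m.1.toNat * U 2 ^ m.2.toNat) := by
  unfold hom ev Finsupp.sum
  rw [map_sum]
  apply Finset.sum_congr rfl
  intro m _
  simp

instance charZero_HK [CharZero F] : CharZero (HK F) := by
  refine ⟨fun m n hmn => ?_⟩
  have h : ∀ k : ℕ, ((k : HK F)) = HahnSeries.C (k : F) := fun k => by simp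
  rw [h, h] at hmn
  exact_mod_cast HahnSeries.C_injective hmn

theorem LM_transfer [CharZero F] {x y : F} (hx : x ≠ 0) (hy : y ≠ 0) {U : ZMod 3 → HR F}
    (hU : ∀ l, evp hx hy (U l) ≠ 0) {d : ℕ} {f : (ℤ × ℤ) →₀ HK F}
    (hf : ∀ m ∈ f.support, 0 ≤ m.1 ∧ 0 ≤ m.2 ∧ m.1 + m.2 ≤ d) {w : ℕ}
    (h : Pool.Agent.TH176.Nag.LM f (evp hx hy (U 1) / evp hx hy (U 0))
      (evp hx hy (U 2) / evp hx hy (U 0)) w) (a : ℝ) :
    Pool.Agent.TH176.Nag.LM ((ev U (hom d f)).coeff a).coeff x y w := by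
  have key : VV hx hy w (ev U (hom d f)) := by
    obtain ⟨x', hx'⟩ : ∃ x', x' = evp hx hy (U 1) / evp hx hy (U 0) := ⟨_, rfl⟩
    obtain ⟨y', hy'⟩ : ∃ y', y' = evp hx hy (U 2) / evp hx hy (U 0) := ⟨_, rfl⟩
    rw [← hx', ← hy'] at h
    have hx0 : x' ≠ 0 := by rw [hx']; exact div_ne_zero (hU 1) (hU 0)
    have hy0 : y' ≠ 0 := by rw [hy']; exact div_ne_zero (hU 2) (hU 0)
    obtain ⟨D1, hD1⟩ : ∃ D1, D1 = U 1 - incl x' * U 0 := ⟨_, rfl⟩
    obtain ⟨D2, hD2⟩ : ∃ D2, D2 = U 2 - incl y' * U 0 := ⟨_, rfl⟩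
    have hV1 : VV hx hy 1 D1 := by
      apply VV_one_of_evp
      rw [hD1, map_sub, map_mul, evp_incl, hx', div_mul_cancel₀ _ (hU 0), sub_self]
    have hV2 : VV hx hy 1 D2 := by
      apply VV_one_of_evp
      rw [hD2, map_sub, map_mul, evp_incl, hy', div_mul_cancel₀ _ (hU 0), sub_self]
    have hU1 : U 1 = D1 + incl x' * U 0 := by rw [hD1]; ring
    have hU2 : U 2 = D2 + incl y' * U 0 := by rw [hD2]; ring
    have hev : ev U (hom d f) = ∑ k ∈ Finset.range (d + 1), ∑ l ∈ Finset.range (d + 1),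
        incl (f.sum (fun m c => c * ((m.1.toNat.choose k : HK F) * (m.2.toNat.choose l : HK F) *
          (x' ^ (m.1.toNat - k) * y' ^ (m.2.toNat - l))))) *
          (U 0 ^ (d - k - l) * D1 ^ k * D2 ^ l) := by
      rw [ev_hom]
      unfold Finsupp.sum
      simp only [map_sum, Finset.sum_mul]
      have hswap : ∀ (t : Finset (ℤ × ℤ)) (G : ℤ × ℤ → ℕ → ℕ → HR F),
          ∑ k ∈ Finset.range (d + 1), ∑ l ∈ Finset.range (d + 1), ∑ m ∈ t, G m k l =
          ∑ m ∈ t, ∑ k ∈ Finset.range (d + 1), ∑ l ∈ Finset.range (d + 1), G m k l := by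
        intro t G
        calc _ = ∑ k ∈ Finset.range (d + 1), ∑ m ∈ t, ∑ l ∈ Finset.range (d + 1), G m k l :=
              Finset.sum_congr rfl fun k _ => Finset.sum_comm
          _ = _ := Finset.sum_comm
      rw [hswap]
      apply Finset.sum_congr rfl
      rintro ⟨m1, m2⟩ hm
      obtain ⟨hm1, hm2, hm3⟩ := hf _ hm
      obtain ⟨p, hp⟩ := Int.eq_ofNat_of_zero_le hm1
      obtain ⟨q, hq⟩ := Int.eq_ofNat_of_zero_le hm2
      simp only at hp hq hm3
      subst hp hq
      obtain ⟨e, he⟩ : ∃ e : ℕ, (d : ℤ) - p - q = e := ⟨((d : ℤ) - p - q).toNat, by omega⟩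
      simp only [Int.toNat_natCast, he]
      rw [hU1, hU2, term_taylor (incl (F := F)) p q e d (by omega) (by omega) (by omega),
        Finset.mul_sum]
      apply Finset.sum_congr rfl
      intro k _
      rw [Finset.mul_sum]
      apply Finset.sum_congr rfl
      intro l _
      rw [← mul_assoc, ← map_mul]
    rw [hev]
    apply VV.sum
    intro k _
    apply VV.sum
    intro l _
    by_cases hkl : k + l < w
    · rw [taylor_coeff_zero hx0 hy0 (fun m hm => ⟨(hf m hm).1, (hf m hm).2.1⟩) h hkl, map_zero,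
        zero_mul]
      exact VV.zero
    · apply VV.mul_left
      have h1 := hV1.pow k
      have h2 := hV2.pow l
      rw [one_mul] at h1 h2
      rw [mul_assoc]
      apply VV.mul_left
      exact (h1.mul h2).mono (by omega)
  exact Pool.Agent.TH671.NagI1.LM_of_mem_ker_pow hx hy
    (Pool.Agent.TH176.Nag.evL x y hx hy) (Pool.Agent.TH176.Nag.evL_mon x y hx hy) (key a)

end Pool.Agent.TH868.NG
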